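import Pool.Agent.Helper12.GD.St

/-!
# Project GD, module FAR (atoms which are far apart may be added)
-/

set_option autoImplicit false

open Finset MP86d903 Pool.Agent.Helper82.RD Pool.Agent.Helper12.GD

namespace Pool.Agent.Helper11.GD

variable {ι V : Type} [DecidableEq ι] [Fintype V] [DecidableEq V] {vs : ι → Finset V}
  {A : Finset V}

private theorem att_ad (hAP : AP vs A) {x z z' : V} (hx : x ∉ A) (hz : z ∈ att vs A x)
    (hz' : z' ∈ att vs A x) : Ad vs A z z' := by
  refine ⟨disjoint_left.1 (hAP.dis x hx) hz, disjoint_left.1 (hAP.dis x hx) hz', ?_⟩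
  rcases hAP.isa x hx with ⟨y, _, he, _⟩ | ⟨c, _, he⟩
  · rw [he, mem_singleton] at hz hz'
    left
    rw [hz, hz']
  · rw [he, mem_sdiff] at hz hz'
    right
    exact ⟨c, hz.1, hz'.1⟩

private theorem ad_refl {x : V} (hx : x ∉ A) : Ad vs A x x := ⟨hx, hx, Or.inl rfl⟩

/-- atoms with two different elements are pair atoms -/
private theorem att_two (hAP : AP vs A) {x z z' : V} (hx : x ∉ A) (hz : z ∈ att vs A x)
    (hz' : z' ∈ att vs A x) (hne : z ≠ z') :
    ∃ c, (vs c \ A).card = 2 ∧ att vs A x = vs c \ A := by
  rcases hAP.isa x hx with ⟨y, _, he, _⟩ | h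
  · rw [he, mem_singleton] at hz hz'
    exact absurd (hz.trans hz'.symm) hne
  · exact h

/-- additivity -/
private theorem gg_split (Z : Finset V) {S T : Finset ι} (hTS : T ⊆ S)
    (hno : ∀ c ∈ T, ∀ c' ∈ S \ T, ∀ u, u ∉ Z → u ∈ vs c → u ∉ vs c') :
    gg vs Z S = gg vs Z T + gg vs Z (S \ T) := by
  have h1 : S.biUnion vs \ Z = (T.biUnion vs \ Z) ∪ ((S \ T).biUnion vs \ Z) := by
    rw [← union_sdiff_distrib, ← union_biUnion, union_sdiff_of_subset hTS]
  have h2 : Disjoint (T.biUnion vs \ Z) ((S \ T).biUnion vs \ Z) := by
    rw [disjoint_left]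
    intro u hu hu'
    rw [mem_sdiff, mem_biUnion] at hu hu'
    obtain ⟨⟨c, hc, huc⟩, huZ⟩ := hu
    obtain ⟨⟨c', hc', huc'⟩, _⟩ := hu'
    exact hno c hc c' hc' u huZ huc huc'
  have h3 : ∑ c ∈ S \ T, ((vs c \ Z).card : ℤ) + ∑ c ∈ T, ((vs c \ Z).card : ℤ) =
      ∑ c ∈ S, ((vs c \ Z).card : ℤ) := sum_sdiff hTS
  unfold gg
  rw [h1, card_union_of_disjoint h2, ← h3]
  push_cast
  ring

/-- FAR -/
theorem hFAR : StFAR := by
  classical
  intro ι V _ _ _ _ vs q q₀ r A hGI hCL hAP hq I hIA hIr hfar
  obtain ⟨J, hJ⟩ : ∃ J, J = I.biUnion (att vs A) := ⟨_, rfl⟩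
  rw [← hJ]
  have hmJ : ∀ z, z ∈ J ↔ ∃ x ∈ I, z ∈ att vs A x := by
    intro z
    rw [hJ, mem_biUnion]
  have hJA : Disjoint J A := by
    rw [disjoint_left]
    intro z hz
    obtain ⟨x, hx, hzx⟩ := (hmJ z).1 hz
    exact disjoint_left.1 (hAP.dis x (hIA x hx)) hzx
  have hself : ∀ x ∈ I, x ∈ att vs A x := fun x hx => hAP.mem x (hIA x hx)
  -- different elements of `I` have different atoms
  have hatt : ∀ x ∈ I, ∀ y ∈ I, att vs A x = att vs A y → x = y := by
    intro x hx y hy h
    by_contra hne
    have hyx : y ∈ att vs A x := by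
      rw [h]
      exact hself y hy
    have hyy : Ad vs A y y := ad_refl (hIA y hy)
    exact hfar x hx y hy hne
      ⟨y, y, y, y, y, y, att_ad hAP (hIA x hx) (hself x hx) hyx, hyy, hyy, hyy, hyy, hyy, hyy⟩
  constructor
  · refine ⟨hJA, ?_, ?_⟩
    · intro c hc
      by_cases hd : Disjoint (vs c) J
      · exact Or.inr hd
      · left
        rw [not_disjoint_iff] at hd
        obtain ⟨z, hzc, hzJ⟩ := hd
        obtain ⟨x, hx, hzx⟩ := (hmJ z).1 hzJ
        have hzA : z ∉ A := disjoint_left.1 hJA hzJ
        have h1 := hAP.pai c z hc (mem_sdiff.2 ⟨hzc, hzA⟩)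
        have h2 := hAP.eqv x z (hIA x hx) hzx
        intro u hu
        rw [hmJ]
        refine ⟨x, hx, ?_⟩
        rw [← h2, h1]
        exact hu
    · intro c hc
      rw [card_le_one]
      intro z hz z' hz'
      by_contra hne
      rw [mem_inter] at hz hz'
      obtain ⟨x, hx, hzx⟩ := (hmJ z).1 hz.2
      obtain ⟨x', hx', hzx'⟩ := (hmJ z').1 hz'.2
      have hzA : z ∉ A := disjoint_left.1 hJA hz.2
      have hzA' : z' ∉ A := disjoint_left.1 hJA hz'.2
      by_cases hxx : x = x'
      · subst hxx
        obtain ⟨d, hd, hed⟩ := att_two hAP (hIA x hx) hzx hzx' hne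
        have hcd : c ≠ d := by
          rintro rfl
          omega
        have hcA : ¬ vs c ⊆ A := fun h => hzA (h hz.1)
        rw [hed, mem_sdiff] at hzx hzx'
        have hdA : ¬ vs d ⊆ A := fun h => hzA (h hzx.1)
        have h1 := hCL.int c d hcd hcA hdA
        have h2 : 1 < ((vs c ∩ vs d) \ A).card := by
          rw [one_lt_card]
          exact ⟨z, mem_sdiff.2 ⟨mem_inter.2 ⟨hz.1, hzx.1⟩, hzA⟩, z',
            mem_sdiff.2 ⟨mem_inter.2 ⟨hz'.1, hzx'.1⟩, hzA'⟩, hne⟩
        omega
      · have hyy : Ad vs A x' x' := ad_refl (hIA x' hx')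
        exact hfar x hx x' hx' hxx
          ⟨z, z', x', x', x', x', att_ad hAP (hIA x hx) (hself x hx) hzx,
            ⟨hzA, hzA', Or.inr ⟨c, hz.1, hz'.1⟩⟩,
            att_ad hAP (hIA x' hx') hzx' (hself x' hx'), hyy, hyy, hyy, hyy⟩
  · obtain ⟨Z, hZ⟩ : ∃ Z, Z = A ∪ J := ⟨_, rfl⟩
    rw [← hZ]
    have hAZ : A ⊆ Z := by
      rw [hZ]
      exact subset_union_left
    have hJZ : J ⊆ Z := by
      rw [hZ]
      exact subset_union_right
    -- strong induction on the cardinality
    have key : ∀ k : ℕ, ∀ S : Finset ι, S.card = k → S.Nonempty → S.card ≤ q₀ →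
        (∀ c ∈ S, ¬ vs c ⊆ Z) → 1 ≤ gg vs Z S := by
      intro k
      induction k using Nat.strong_induction_on with
      | _ k ih =>
        intro S hSk hSn hSq hSZ
        by_cases hconn : ∃ T ⊆ S, T.Nonempty ∧ T ≠ S ∧
            ∀ c ∈ T, ∀ c' ∈ S \ T, ∀ u, u ∉ Z → u ∈ vs c → u ∉ vs c'
        · obtain ⟨T, hTS, hTn, hTne, hno⟩ := hconn
          have hss : T ⊂ S := lt_of_le_of_ne hTS hTne
          have h1 := card_lt_card hss
          have h2 : (S \ T).Nonempty := by
            rw [sdiff_nonempty]
            exact fun h => hTne (subset_antisymm hTS h)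
          have h3 : (S \ T).card + T.card = S.card := card_sdiff_add_card_eq_card hTS
          have hT0 := card_pos.2 hTn
          have h4 := ih T.card (by omega) T rfl hTn (by omega) (fun c hc => hSZ c (hTS hc))
          have h5 := ih (S \ T).card (by omega) (S \ T) rfl h2 (by omega)
            (fun c hc => hSZ c (mem_sdiff.1 hc).1)
          rw [gg_split Z hTS hno]
          omega
        · -- connected case
          have hcon : ∀ T ⊆ S, T.Nonempty → T ≠ S →
              ∃ c ∈ T, ∃ c' ∈ S, c' ∉ T ∧ ∃ u, u ∉ Z ∧ u ∈ vs c ∧ u ∈ vs c' := by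
            intro T hTS hTn hTne
            by_contra hcc
            apply hconn
            refine ⟨T, hTS, hTn, hTne, ?_⟩
            intro c hc c' hc' u hu huc huc'
            rw [mem_sdiff] at hc'
            exact hcc ⟨c, hc, c', hc'.1, hc'.2, u, hu, huc, huc'⟩
          have hSA : ∀ c ∈ S, ¬ vs c ⊆ A := fun c hc h => hSZ c hc (h.trans hAZ)
          haveI : Nonempty ι := ⟨hSn.choose⟩
          haveI : Nonempty V := ⟨(not_subset.1 (hSZ _ hSn.choose_spec)).choose⟩
          obtain ⟨N, hN⟩ : ∃ N, N = S.biUnion vs := ⟨_, rfl⟩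
          obtain ⟨Kt, hKt⟩ : ∃ Kt, Kt = I.filter (fun x => (att vs A x ∩ N).Nonempty) :=
            ⟨_, rfl⟩
          obtain ⟨P, hP⟩ : ∃ P, P = I.filter (fun x => 2 ≤ (att vs A x ∩ N).card) := ⟨_, rfl⟩
          -- the number of the touched variables
          have hNJ : (N ∩ J).card ≤ Kt.card + P.card := by
            have h1 : N ∩ J = I.biUnion (fun x => att vs A x ∩ N) := by
              rw [hJ]
              ext z
              simp only [mem_inter, mem_biUnion]
              constructor
              · rintro ⟨hz, x, hx, hzx⟩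
                exact ⟨x, hx, hzx, hz⟩
              · rintro ⟨x, hx, hzx, hz⟩
                exact ⟨hz, x, hx, hzx⟩
            rw [h1, hKt, hP, card_filter, card_filter, ← sum_add_distrib]
            refine card_biUnion_le.trans (sum_le_sum fun x hx => ?_)
            have h2 : (att vs A x ∩ N).card ≤ 2 :=
              (card_le_card inter_subset_left).trans (hAP.two x (hIA x hx))
            by_cases h3 : (att vs A x ∩ N).Nonempty
            · rw [if_pos h3]
              split_ifs <;> omega
            · rw [not_nonempty_iff_eq_empty] at h3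
              rw [h3, card_empty]
              exact Nat.zero_le _
          have hgg1 := hGI.add A J hJA S
          rw [← hZ, ← hN] at hgg1
          have hgg2 := hGI.low J S
          rw [← hN] at hgg2
          -- the clauses of the pair atoms
          have hPc : ∀ x ∈ P, ∃ c, (vs c \ A).card = 2 ∧ att vs A x = vs c \ A ∧
              vs c \ A ⊆ N := by
            intro x hx
            rw [hP, mem_filter] at hx
            obtain ⟨z, hz, z', hz', hne⟩ := one_lt_card.1 (show 1 < (att vs A x ∩ N).card by
              omega)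
            rw [mem_inter] at hz hz'
            obtain ⟨c, hc, hec⟩ := att_two hAP (hIA x hx.1) hz.1 hz'.1 hne
            refine ⟨c, hc, hec, ?_⟩
            have h1 : att vs A x ∩ N = att vs A x :=
              eq_of_subset_of_card_le inter_subset_left
                ((hAP.two x (hIA x hx.1)).trans hx.2)
            rw [← hec, ← h1]
            exact inter_subset_right
          choose! cl hcl2 hcle hclN using hPc
          obtain ⟨Q, hQ⟩ : ∃ Q, Q = P.image cl := ⟨_, rfl⟩
          have hPI : P ⊆ I := by
            rw [hP]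
            exact filter_subset _ _
          have hQc : Q.card = P.card := by
            rw [hQ]
            apply card_image_of_injOn
            intro x hx y hy hxy
            apply hatt x (hPI hx) y (hPI hy)
            rw [hcle x hx, hcle y hy]
            rw [hxy]
          have hQS : Disjoint S Q := by
            rw [disjoint_left]
            intro c hcS hcQ
            rw [hQ, mem_image] at hcQ
            obtain ⟨x, hx, rfl⟩ := hcQ
            apply hSZ _ hcS
            intro u hu
            by_cases huA : u ∈ A
            · exact hAZ huA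
            · apply hJZ
              rw [hmJ]
              refine ⟨x, hPI hx, ?_⟩
              rw [hcle x hx]
              exact mem_sdiff.2 ⟨hu, huA⟩
          have hQ2 : ∀ c ∈ Q, (vs c \ A).card = 2 ∧ vs c \ A ⊆ N := by
            intro c hc
            rw [hQ, mem_image] at hc
            obtain ⟨x, hx, rfl⟩ := hc
            exact ⟨hcl2 x hx, hclN x hx⟩
          have hggS : gg vs A (S ∪ Q) = gg vs A S - 2 * (P.card : ℤ) := by
            have h1 : (S ∪ Q).biUnion vs \ A = N \ A := by
              rw [union_biUnion, ← hN, union_sdiff_distrib]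
              apply union_eq_left.2
              intro u hu
              rw [mem_sdiff, mem_biUnion] at hu
              obtain ⟨⟨c, hc, huc⟩, huA⟩ := hu
              exact mem_sdiff.2 ⟨(hQ2 c hc).2 (mem_sdiff.2 ⟨huc, huA⟩), huA⟩
            have h2 : ∑ c ∈ Q, ((vs c \ A).card : ℤ) = 2 * (P.card : ℤ) := by
              rw [← hQc, sum_congr rfl (fun c hc => show ((vs c \ A).card : ℤ) = 2 by
                rw [(hQ2 c hc).1]
                rfl), sum_const, nsmul_eq_mul, mul_comm]
            unfold gg
            rw [h1, sum_union hQS, h2, ← hN]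
            ring
          have hcardSQ : (S ∪ Q).card = S.card + P.card := by
            rw [card_union_of_disjoint hQS, hQc]
          have hPr : P.card ≤ r := (card_le_card hPI).trans hIr
          have hSQA : ∀ c ∈ S ∪ Q, ¬ vs c ⊆ A := by
            intro c hc
            rcases mem_union.1 hc with h | h
            · exact hSA c h
            · intro hsub
              have h1 := (hQ2 c h).1
              rw [sdiff_eq_empty_iff_subset.2 hsub, card_empty] at h1
              omega
          have hSQn : (S ∪ Q).Nonempty := hSn.mono subset_union_left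
          have hG2 := hCL.gg2 (S ∪ Q) hSQn (by omega) hSQA
          have hG3 := hCL.gg3 (S ∪ Q) hSQn (by omega) hSQA
          rw [hggS] at hG2 hG3
          rw [hcardSQ] at hG3
          push_cast at hG3
          have hNJ' : ((N ∩ J).card : ℤ) ≤ (Kt.card : ℤ) + P.card := by exact_mod_cast hNJ
          rcases Nat.lt_or_ge Kt.card 2 with hK | hK
          · have hK' : (Kt.card : ℤ) ≤ 1 := by exact_mod_cast (by omega : Kt.card ≤ 1)
            have hP0 : (0 : ℤ) ≤ P.card := Int.natCast_nonneg _
            linarith
          · -- many touched atoms: `S` is large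
            have hKz : ∀ x ∈ Kt, ∃ z c, z ∈ att vs A x ∧ c ∈ S ∧ z ∈ vs c := by
              intro x hx
              rw [hKt, mem_filter] at hx
              obtain ⟨z, hz⟩ := hx.2
              rw [mem_inter, hN, mem_biUnion] at hz
              obtain ⟨hz1, c, hc, hzc⟩ := hz
              exact ⟨z, c, hz1, hc, hzc⟩
            choose! zz cc hzz hccS hzc using hKz
            have hKI : Kt ⊆ I := by
              rw [hKt]
              exact filter_subset _ _
            have hRr : ∀ c ∈ S, ∃ u, u ∉ Z ∧ u ∈ vs c := by
              intro c hc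
              obtain ⟨u, hu, huZ⟩ := not_subset.1 (hSZ c hc)
              exact ⟨u, huZ, hu⟩
            obtain ⟨B1, hB1⟩ : ∃ B1 : V → Finset ι, B1 = fun x => S.filter (fun d =>
              ∃ u, u ∉ Z ∧ u ∈ vs (cc x) ∧ u ∈ vs d) := ⟨_, rfl⟩
            obtain ⟨B2, hB2⟩ : ∃ B2 : V → Finset ι, B2 = fun x => S.filter (fun d =>
              ∃ e ∈ B1 x, ∃ u, u ∉ Z ∧ u ∈ vs e ∧ u ∈ vs d) := ⟨_, rfl⟩
            have hm1 : ∀ x d, d ∈ B1 x ↔ d ∈ S ∧ ∃ u, u ∉ Z ∧ u ∈ vs (cc x) ∧ u ∈ vs d := by
              intro x d
              rw [hB1]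
              exact mem_filter
            have hm2 : ∀ x d, d ∈ B2 x ↔ d ∈ S ∧ ∃ e ∈ B1 x, ∃ u, u ∉ Z ∧ u ∈ vs e ∧ u ∈ vs d := by
              intro x d
              rw [hB2]
              exact mem_filter
            have hZA : ∀ u, u ∉ Z → u ∉ A := fun u hu h => hu (hAZ h)
            have hc1 : ∀ x ∈ Kt, cc x ∈ B1 x := by
              intro x hx
              obtain ⟨u, hu, huc⟩ := hRr _ (hccS x hx)
              exact (hm1 x _).2 ⟨hccS x hx, u, hu, huc, huc⟩
            have h12 : ∀ x, B1 x ⊆ B2 x := by
              intro x d hd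
              have hdS := ((hm1 x d).1 hd).1
              obtain ⟨u, hu, huc⟩ := hRr _ hdS
              exact (hm2 x d).2 ⟨hdS, d, hd, u, hu, huc, huc⟩
            have hdisj : ∀ x ∈ Kt, ∀ y ∈ Kt, x ≠ y → Disjoint (B2 x) (B2 y) := by
              intro x hx y hy hne
              rw [disjoint_left]
              intro d hdx hdy
              obtain ⟨hdS, e, he, u2, hu2, hu2e, hu2d⟩ := (hm2 x d).1 hdx
              obtain ⟨heS, u1, hu1, hu1c, hu1e⟩ := (hm1 x e).1 he
              obtain ⟨_, f, hf, u3, hu3, hu3f, hu3d⟩ := (hm2 y d).1 hdy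
              obtain ⟨hfS, u4, hu4, hu4c, hu4f⟩ := (hm1 y f).1 hf
              have hxI := hKI hx
              have hyI := hKI hy
              have hzxA : zz x ∉ A :=
                disjoint_left.1 (hAP.dis x (hIA x hxI)) (hzz x hx)
              have hzyA : zz y ∉ A :=
                disjoint_left.1 (hAP.dis y (hIA y hyI)) (hzz y hy)
              exact hfar x hxI y hyI hne
                ⟨zz x, u1, u2, u3, u4, zz y, att_ad hAP (hIA x hxI) (hself x hxI) (hzz x hx),
                  ⟨hzxA, hZA u1 hu1, Or.inr ⟨cc x, hzc x hx, hu1c⟩⟩,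
                  ⟨hZA u1 hu1, hZA u2 hu2, Or.inr ⟨e, hu1e, hu2e⟩⟩,
                  ⟨hZA u2 hu2, hZA u3 hu3, Or.inr ⟨d, hu2d, hu3d⟩⟩,
                  ⟨hZA u3 hu3, hZA u4 hu4, Or.inr ⟨f, hu3f, hu4f⟩⟩,
                  ⟨hZA u4 hu4, hzyA, Or.inr ⟨cc y, hu4c, hzc y hy⟩⟩,
                  att_ad hAP (hIA y hyI) (hzz y hy) (hself y hyI)⟩
            have h3 : ∀ x ∈ Kt, 3 ≤ (B2 x).card := by
              intro x hx
              -- some other touched variable
              obtain ⟨y, hy, hyx⟩ : ∃ y ∈ Kt, y ≠ x := by
                by_contra hcc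
                have h1 : Kt ⊆ {x} := by
                  intro y hy
                  rw [mem_singleton]
                  by_contra hyx
                  exact hcc ⟨y, hy, hyx⟩
                have h2 := card_le_card h1
                rw [card_singleton] at h2
                omega
              have hy2 : cc y ∉ B2 x := by
                intro h
                exact disjoint_left.1 (hdisj x hx y hy hyx.symm) h (h12 y (hc1 y hy))
              have hS1 : B1 x ≠ S := by
                intro h
                apply hy2
                apply h12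
                rw [h]
                exact hccS y hy
              have hS0 : ({cc x} : Finset ι) ≠ S := by
                intro h
                have h1 : cc y ∈ ({cc x} : Finset ι) := by
                  rw [h]
                  exact hccS y hy
                rw [mem_singleton] at h1
                apply hy2
                rw [h1]
                exact h12 x (hc1 x hx)
              obtain ⟨c, hc, c', hc'S, hc'n, u, hu, huc, huc'⟩ := hcon {cc x}
                (singleton_subset_iff.2 (hccS x hx)) (singleton_nonempty _) hS0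
              rw [mem_singleton] at hc hc'n
              subst hc
              have hc'1 : c' ∈ B1 x := (hm1 x c').2 ⟨hc'S, u, hu, huc, huc'⟩
              obtain ⟨e, he, e', he'S, he'n, v, hv, hve, hve'⟩ := hcon (B1 x)
                (fun d hd => ((hm1 x d).1 hd).1) ⟨_, hc1 x hx⟩ hS1
              have he'2 : e' ∈ B2 x := (hm2 x e').2 ⟨he'S, e, he, v, hv, hve, hve'⟩
              have hsub : ({cc x, c', e'} : Finset ι) ⊆ B2 x := by
                intro d hd
                simp only [mem_insert, mem_singleton] at hd
                rcases hd with rfl | rfl | rfl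
                · exact h12 x (hc1 x hx)
                · exact h12 x hc'1
                · exact he'2
              have hcard : ({cc x, c', e'} : Finset ι).card = 3 := by
                rw [card_eq_three]
                refine ⟨cc x, c', e', fun h => hc'n h.symm, ?_, ?_, rfl⟩
                · rintro rfl
                  exact he'n (hc1 x hx)
                · rintro rfl
                  exact he'n hc'1
              rw [← hcard]
              exact card_le_card hsub
            have h4 : 3 * Kt.card ≤ S.card := by
              have h5 : (Kt.biUnion B2).card = ∑ x ∈ Kt, (B2 x).card :=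
                card_biUnion (fun x hx y hy hne => hdisj x hx y hy hne)
              have h6 : Kt.biUnion B2 ⊆ S := by
                intro d hd
                rw [mem_biUnion] at hd
                obtain ⟨x, _, hdx⟩ := hd
                exact ((hm2 x d).1 hdx).1
              have h7 : ∑ x ∈ Kt, 3 ≤ ∑ x ∈ Kt, (B2 x).card := sum_le_sum h3
              rw [sum_const, smul_eq_mul] at h7
              have h8 := card_le_card h6
              omega
            have h4' : 3 * (Kt.card : ℤ) ≤ S.card := by exact_mod_cast h4
            have hP0 : (0 : ℤ) ≤ P.card := Int.natCast_nonneg _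
            by_contra hlt
            have h9 : gg vs Z S ≤ 0 := by omega
            linarith
    intro S hSn hSq hSZ
    exact key _ S rfl hSn hSq hSZ

end Pool.Agent.Helper11.GD
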