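import Pool.Agent.Helper43.GD.St

/-! Module TG of project GD (MP_b3ce06_al). -/

set_option autoImplicit false
set_option linter.unusedSectionVars false

namespace Pool.Agent.Helper11.GD

open Pool.Agent.Helper43.GD
open Matrix

section SL

variable {K : Type} [Field K]

/-- upper transvection -/
def EE (c : K) : SpecialLinearGroup (Fin 2) K := ⟨!![1, c; 0, 1], by simp [Matrix.det_fin_two]⟩

/-- the Weyl element -/
def WW (K : Type) [Field K] : SpecialLinearGroup (Fin 2) K :=
  ⟨!![0, -1; 1, 0], by rw [Matrix.det_fin_two]; simp⟩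

/-- diagonal matrices -/
def DD (s : Kˣ) : SpecialLinearGroup (Fin 2) K :=
  ⟨!![((s⁻¹ : Kˣ) : K), 0; 0, (s : K)], by rw [Matrix.det_fin_two]; simp⟩

private lemma EE_add (a b : K) : EE (a + b) = EE a * EE b := by
  apply Subtype.ext
  ext i j
  fin_cases i <;> fin_cases j <;> simp [EE, Matrix.mul_apply, Fin.sum_univ_two, add_comm]

private lemma EE_zero : EE (0 : K) = 1 := by
  apply Subtype.ext
  ext i j
  fin_cases i <;> fin_cases j <;> simp [EE]

private lemma EE_neg (a : K) : EE (-a) = (EE a)⁻¹ := by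
  rw [eq_inv_iff_mul_eq_one, ← EE_add, neg_add_cancel, EE_zero]

private lemma braid : EE (1 : K) * WW K * EE 1 = WW K * EE (-1) * (WW K)⁻¹ := by
  rw [eq_mul_inv_iff_mul_eq]
  apply Subtype.ext
  ext i j
  fin_cases i <;> fin_cases j <;>
    simp [EE, WW, Matrix.mul_apply, Fin.sum_univ_two]

private lemma DD_conj (s : Kˣ) (c : K) : (DD s)⁻¹ * EE c * DD s = EE ((s : K) ^ 2 * c) := by
  rw [mul_assoc, inv_mul_eq_iff_eq_mul]
  apply Subtype.ext
  ext i j
  fin_cases i <;> fin_cases j <;>
    simp [DD, EE, Matrix.mul_apply, Fin.sum_univ_two]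
  field_simp

private lemma WW_conj (s : Kˣ) : (WW K)⁻¹ * DD s * WW K = (DD s)⁻¹ := by
  rw [eq_inv_iff_mul_eq_one, mul_assoc, mul_assoc, inv_mul_eq_iff_eq_mul, mul_one]
  apply Subtype.ext
  ext i j
  fin_cases i <;> fin_cases j <;> simp [DD, WW, Matrix.mul_apply, Fin.sum_univ_two]

private lemma cj_eq (s : Kˣ) (c : K) (n : ℕ) :
    cj (EE c) (DD s) (n : ℤ) = EE (((s : K) ^ 2) ^ n * c) := by
  unfold cj
  rw [_root_.zpow_neg, zpow_natCast]
  induction n with
  | zero => simp
  | succ n ih =>
    have : ((DD s) ^ (n + 1))⁻¹ * EE c * (DD s) ^ (n + 1) =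
        (DD s)⁻¹ * (((DD s) ^ n)⁻¹ * EE c * (DD s) ^ n) * DD s := by
      rw [pow_succ]; group
    rw [this, ih, DD_conj]
    congr 1
    ring

/-- generation of `SL(2,K)` -/
private lemma gen (P : Subgroup (SpecialLinearGroup (Fin 2) K)) (hE : ∀ c : K, EE c ∈ P)
    (hW : WW K ∈ P) : P = ⊤ := by
  rw [Subgroup.eq_top_iff']
  have key : ∀ g : SpecialLinearGroup (Fin 2) K, g.1 1 0 ≠ 0 → g ∈ P := by
    intro g hg
    have hdet := g.2
    rw [Matrix.det_fin_two] at hdet
    have hF : WW K * EE (-(g.1 1 0)) * (WW K)⁻¹ ∈ P :=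
      P.mul_mem (P.mul_mem hW (hE _)) (P.inv_mem hW)
    have hF2 : WW K * EE (-(g.1 1 0)) * (WW K)⁻¹ =
        ⟨!![1, 0; g.1 1 0, 1], by simp [Matrix.det_fin_two]⟩ := by
      rw [mul_inv_eq_iff_eq_mul]
      apply Subtype.ext
      ext i j
      fin_cases i <;> fin_cases j <;>
        simp [EE, WW, Matrix.mul_apply, Fin.sum_univ_two]
    have : g = EE ((g.1 0 0 - 1) * (g.1 1 0)⁻¹) * (WW K * EE (-(g.1 1 0)) * (WW K)⁻¹) *
        EE ((g.1 1 1 - 1) * (g.1 1 0)⁻¹) := by
      rw [hF2]
      apply Subtype.ext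
      ext i j
      fin_cases i <;> fin_cases j <;>
        simp [EE, Matrix.mul_apply, Fin.sum_univ_two]
      · field_simp
        ring
      · field_simp
        linear_combination -hdet
      · field_simp
        ring
    rw [this]
    exact P.mul_mem (P.mul_mem (hE _) hF) (hE _)
  intro g
  by_cases hg : g.1 1 0 = 0
  · have h1 : WW K * g ∈ P := by
      apply key
      have hdet := g.2
      rw [Matrix.det_fin_two, hg, mul_zero, sub_zero] at hdet
      have : (WW K * g).1 1 0 = g.1 0 0 := by
        simp [WW, Matrix.mul_apply, Fin.sum_univ_two]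
      rw [this]
      exact left_ne_zero_of_mul_eq_one hdet
    exact (P.mul_mem_cancel_left hW).1 h1
  · exact key g hg

end SL

private lemma aux1 {F : Type} [Field F] (s y : F) (hs : s ≠ 0) : (s ^ 2)⁻¹ * y * s = s⁻¹ * y := by
  field_simp

private lemma aux2 {F : Type} [Field F] (s y : F) (hs : s ≠ 0) : s ^ 2 * y * s⁻¹ = s * y := by
  field_simp

private lemma aux3 {F : Type} [Field F] (s y : F) (hs : s ≠ 0) : s⁻¹ * (s ^ 2 * y) = y * s := by
  field_simp

private lemma aux4 {F : Type} [Field F] (s y : F) (hs : s ≠ 0) : s * ((s ^ 2)⁻¹ * y) = y * s⁻¹ := by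
  field_simp

/-- additive span of the powers of `x` -/
private lemma span_top (p : ℕ) [Fact p.Prime] (x : GaloisField p 2) (hx : x ^ p ≠ x)
    (Z : AddSubgroup (GaloisField p 2)) (hZ : ∀ i : ℕ, x ^ i ∈ Z) : ∀ y, y ∈ Z := by
  have hfr : Module.finrank (ZMod p) (GaloisField p 2) = 2 := GaloisField.finrank p two_ne_zero
  have hsimple : IsSimpleOrder (Subalgebra (ZMod p) (GaloisField p 2)) :=
    Subalgebra.isSimpleOrder_of_finrank_prime _ _ (by rw [hfr]; exact Nat.prime_two)
  have htop : Algebra.adjoin (ZMod p) {x} = ⊤ := by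
    rcases hsimple.eq_bot_or_eq_top (Algebra.adjoin (ZMod p) {x}) with h | h
    · exfalso
      have hx2 : x ∈ Algebra.adjoin (ZMod p) {x} := Algebra.self_mem_adjoin_singleton _ _
      rw [h, Algebra.mem_bot] at hx2
      obtain ⟨c, hc⟩ := hx2
      apply hx
      rw [← hc, ← map_pow, ZMod.pow_card]
    · exact h
  intro y
  have hy : y ∈ Algebra.adjoin (ZMod p) {x} := by rw [htop]; trivial
  rw [Algebra.adjoin_singleton_eq_range_aeval] at hy
  obtain ⟨q, rfl⟩ := hy
  induction q using Polynomial.induction_on' with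
  | add q r hq hr => rw [map_add]; exact Z.add_mem hq hr
  | monomial i c =>
    show Polynomial.aeval x (Polynomial.monomial i c) ∈ Z
    rw [Polynomial.aeval_monomial]
    have h1 : (algebraMap (ZMod p) (GaloisField p 2)) c = ((c.val : ℕ) : GaloisField p 2) := by
      conv_lhs => rw [← ZMod.natCast_zmod_val c]
      rw [map_natCast]
    rw [h1, ← nsmul_eq_mul]
    exact Z.nsmul_mem (hZ i) _

/-- Module TG. -/
theorem hTG (hTF : StTF) : StTG := by
  intro p hp hmod
  haveI := hp
  obtain ⟨x, hx1, hxp, hxM⟩ := hTF p hp hmod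
  have hx0 : x ≠ 0 := by
    rintro rfl
    simp at hx1
  let Ω : Type := AlgebraicClosure (GaloisField p 2)
  let j : GaloisField p 2 →+* Ω := algebraMap (GaloisField p 2) Ω
  have hj : Function.Injective j := (algebraMap (GaloisField p 2) Ω).injective
  obtain ⟨μ, hμ⟩ := IsAlgClosed.exists_pow_nat_eq (j x) (n := 2) (by norm_num)
  have hμ0 : μ ≠ 0 := by
    rintro rfl
    rw [zero_pow two_ne_zero] at hμ
    exact hx0 ((map_eq_zero j).1 hμ.symm)
  set s : Ωˣ := Units.mk0 μ hμ0 with hs
  have hs2 : (s : Ω) ^ 2 = j x := by rw [hs, Units.val_mk0, hμ]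
  let φ : SpecialLinearGroup (Fin 2) (GaloisField p 2) →* SpecialLinearGroup (Fin 2) Ω :=
    SpecialLinearGroup.map j
  have hφ : Function.Injective φ := by
    intro g h hgh
    apply Subtype.ext
    ext i k
    have := congrArg (fun M => M.1 i k) hgh
    simp only [φ, SpecialLinearGroup.map_apply_coe, RingHom.mapMatrix_apply, Matrix.map_apply] at this
    exact hj this
  have hφE : ∀ c, φ (EE c) = EE (j c) := by
    intro c
    apply Subtype.ext
    ext i k
    fin_cases i <;> fin_cases k <;> simp [φ, EE]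
  have hφW : φ (WW (GaloisField p 2)) = WW Ω := by
    apply Subtype.ext
    ext i k
    fin_cases i <;> fin_cases k <;> simp [φ, WW]
  have hcj : ∀ n : ℕ, cj (EE (1 : Ω)) (DD s) (n : ℤ) = φ (EE (x ^ n)) := by
    intro n
    rw [cj_eq, mul_one, hs2, hφE, map_pow]
  refine ⟨SpecialLinearGroup (Fin 2) Ω, inferInstance, EE 1, WW Ω, DD s, ⟨?_, ?_, ?_⟩, ?_⟩
  · rw [hcj, hxM, hφE, map_neg, map_one]
    exact braid
  · exact WW_conj s
  · have h1 := hcj 1
    have h2 := hcj 2
    rw [Nat.cast_one] at h1
    rw [Nat.cast_ofNat] at h2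
    rw [h1, h2, ← map_mul, ← EE_add, pow_one, add_comm, hx1, hφE, map_one]
  · intro G _ f ga gw gt hga hgw hgt hcl
    set N : Subgroup (SpecialLinearGroup (Fin 2) Ω) := φ.range with hN
    -- conjugation by `t`
    have ht1 : ∀ n ∈ N, DD s * n * (DD s)⁻¹ ∈ N := by
      rintro _ ⟨g, rfl⟩
      refine ⟨⟨!![g.1 0 0, x⁻¹ * g.1 0 1; x * g.1 1 0, g.1 1 1], ?_⟩, ?_⟩
      · have hdet := g.2
        rw [Matrix.det_fin_two] at hdet
        rw [Matrix.det_fin_two]
        simp only [Matrix.of_apply, Matrix.cons_val', Matrix.cons_val_zero, Matrix.cons_val_one,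
          Matrix.cons_val_fin_one]
        refine Eq.trans ?_ hdet
        field_simp
      · rw [eq_mul_inv_iff_mul_eq]
        apply Subtype.ext
        ext i k
        fin_cases i <;> fin_cases k <;>
          simp [φ, DD, Matrix.mul_apply, Fin.sum_univ_two, ← hs2]
        · ring
        · exact aux1 _ _ s.ne_zero
        · exact aux2 _ _ s.ne_zero
        · ring
    have ht2 : ∀ n ∈ N, (DD s)⁻¹ * n * DD s ∈ N := by
      rintro _ ⟨g, rfl⟩
      refine ⟨⟨!![g.1 0 0, x * g.1 0 1; x⁻¹ * g.1 1 0, g.1 1 1], ?_⟩, ?_⟩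
      · have hdet := g.2
        rw [Matrix.det_fin_two] at hdet
        rw [Matrix.det_fin_two]
        simp only [Matrix.of_apply, Matrix.cons_val', Matrix.cons_val_zero, Matrix.cons_val_one,
          Matrix.cons_val_fin_one]
        refine Eq.trans ?_ hdet
        field_simp
      · rw [mul_assoc (DD s)⁻¹ (φ g) (DD s), eq_inv_mul_iff_mul_eq]
        apply Subtype.ext
        ext i k
        fin_cases i <;> fin_cases k <;>
          simp [φ, DD, Matrix.mul_apply, Fin.sum_univ_two, ← hs2]
        · ring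
        · exact aux3 _ _ s.ne_zero
        · exact aux4 _ _ s.ne_zero
        · ring
    have hnorm : ∀ g : G, f g ∈ Subgroup.normalizer (N : Set (SpecialLinearGroup (Fin 2) Ω)) := by
      have h1 : (⊤ : Subgroup G) ≤ (Subgroup.normalizer (N : Set (SpecialLinearGroup (Fin 2) Ω))).comap f := by
        rw [← hcl, Subgroup.closure_le]
        intro g hg
        simp only [Set.mem_insert_iff, Set.mem_singleton_iff] at hg
        rcases hg with rfl | rfl | rfl
        · apply Subgroup.le_normalizer
          rw [hga]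
          exact ⟨EE 1, by rw [hφE, map_one]⟩
        · apply Subgroup.le_normalizer
          rw [hgw]
          exact ⟨WW _, hφW⟩
        · show f g ∈ Subgroup.normalizer (N : Set (SpecialLinearGroup (Fin 2) Ω))
          rw [hgt, Subgroup.mem_normalizer_iff]
          intro h
          constructor
          · exact ht1 h
          · intro hh
            have := ht2 _ hh
            have e : (DD s)⁻¹ * (DD s * h * (DD s)⁻¹) * DD s = h := by group
            rwa [e] at this
      intro g
      exact h1 (Subgroup.mem_top g)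
    have hEr : ∀ n : ℕ, φ (EE (x ^ n)) ∈ f.range := by
      intro n
      rw [← hcj, ← hga, ← hgt]
      exact ⟨cj ga gt (n : ℤ), by simp only [cj, map_mul, map_zpow]⟩
    have hNr : N ≤ f.range := by
      let Z : AddSubgroup (GaloisField p 2) :=
        { carrier := {c | φ (EE c) ∈ f.range}
          zero_mem' := by
            show φ (EE 0) ∈ f.range
            rw [EE_zero, map_one]
            exact f.range.one_mem
          add_mem' := by
            intro b c hb hc
            show φ (EE (b + c)) ∈ f.range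
            rw [EE_add, map_mul]
            exact f.range.mul_mem hb hc
          neg_mem' := by
            intro b hb
            show φ (EE (-b)) ∈ f.range
            rw [EE_neg, map_inv]
            exact f.range.inv_mem hb }
      have hall := span_top p x hxp Z hEr
      have hP : f.range.comap φ = ⊤ :=
        gen _ (fun c => hall c) (by
          show φ (WW _) ∈ f.range
          rw [hφW, ← hgw]
          exact ⟨gw, rfl⟩)
      rintro _ ⟨g, rfl⟩
      have : g ∈ f.range.comap φ := by rw [hP]; trivial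
      exact this
    refine ⟨N.comap f, ⟨?_⟩, ?_⟩
    · intro n hn g
      show f (g * n * g⁻¹) ∈ N
      rw [map_mul, map_mul, map_inv]
      exact (Subgroup.mem_normalizer_iff.1 (hnorm g) (f n)).1 hn
    · let e : SpecialLinearGroup (Fin 2) (GaloisField p 2) ≃* N := MonoidHom.ofInjective hφ
      refine ⟨(QuotientGroup.mk' (Subgroup.center (SpecialLinearGroup (Fin 2)
        (GaloisField p 2)))).comp (e.symm.toMonoidHom.comp (f.subgroupComap N)), ?_⟩
      intro q
      obtain ⟨g, rfl⟩ := QuotientGroup.mk'_surjective _ q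
      obtain ⟨y, hy⟩ := hNr (e g).2
      have hyN : f y ∈ N := by rw [hy]; exact (e g).2
      refine ⟨⟨y, hyN⟩, ?_⟩
      have h3 : (f.subgroupComap N) ⟨y, hyN⟩ = e g := Subtype.ext hy
      show QuotientGroup.mk' _ (e.symm ((f.subgroupComap N) ⟨y, hyN⟩)) = _
      rw [h3, MulEquiv.symm_apply_apply]

end Pool.Agent.Helper11.GD
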